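import Pool.Agent.Lib.MP_cd6101_pr.Main

/-!
# The law of the `h`-shift of the directed landscape is singular to the law of the landscape

Definitions (in `Pool.Agent.Lib.MP_cd6101_pr.Defs`): Brownian last passage percolation, the Airy
sheet, the directed landscape, the length of a path and the `h`-shift of a landscape.
-/

open Set Topology MeasureTheory ProbabilityTheory Filter

open Pool.Agent.Lib.MP_cd6101_pr

/-- Let `L` be a directed landscape and let `h` be continuous, bounded and not identically zero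
(for instance smooth with compact support). Then the laws of `L` and of its `h`-shift `L'` are
mutually singular. The first part gives a measurable set `A` of functions on `ℝ⁴_↑` such that
almost surely `L ∉ A`, and almost surely the `h`-shift is finite everywhere and belongs to `A`.
The second part says that the laws of `L` and `L'` as random elements of `C(ℝ⁴_↑)`, with the
Borel sets of the topology of uniform convergence on compact sets, are mutually singular. -/
theorem Pool.Agent.Results.MP_cd6101_pr.ShiftSingular.result {Ω : Type*} [MeasurableSpace Ω]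
    (P : Measure Ω) [IsProbabilityMeasure P] (L : Ω → ℝ → ℝ → ℝ → ℝ → ℝ)
    (hL : IsDirectedLandscape L P) (h : ℝ × ℝ → ℝ) (hh : Continuous h)
    (hb : ∃ H, ∀ p, |h p| ≤ H) (hne : ∃ p, h p ≠ 0)
    [MeasurableSpace C(Up, ℝ)] [BorelSpace C(Up, ℝ)] :
    (∃ A : Set (Up → ℝ), MeasurableSet A ∧
      (∀ᵐ ω ∂P, (fun q : Up => L ω q.1.1.1 q.1.1.2 q.1.2.1 q.1.2.2) ∉ A) ∧
      (∀ᵐ ω ∂P, ∃ f : Up → ℝ,
        (∀ q : Up, (f q : EReal) = hShift h (L ω) q.1.1.1 q.1.1.2 q.1.2.1 q.1.2.2) ∧ f ∈ A)) ∧
    (∀ X Y : Ω → C(Up, ℝ), AEMeasurable X P → AEMeasurable Y P →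
      (∀ᵐ ω ∂P, ∀ q : Up, X ω q = L ω q.1.1.1 q.1.1.2 q.1.2.1 q.1.2.2) →
      (∀ᵐ ω ∂P, ∀ q : Up,
        (Y ω q : EReal) = hShift h (L ω) q.1.1.1 q.1.1.2 q.1.2.1 q.1.2.2) →
      (P.map X).MutuallySingular (P.map Y)) := by
  obtain ⟨H, hH⟩ := hb
  obtain ⟨A, hA, h1, h2⟩ := main_singular hL hh hH hne
  refine ⟨⟨A, hA, h1, h2⟩, ?_⟩
  intro X Y hX hY hXL hYL
  have hmeas : Measurable fun f : C(Up, ℝ) => (f : Up → ℝ) := by
    refine measurable_pi_iff.2 fun q => ?_
    exact (ContinuousEvalConst.continuous_eval_const q).measurable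
  refine ⟨(fun f : C(Up, ℝ) => (f : Up → ℝ)) ⁻¹' A, hmeas hA, ?_, ?_⟩
  · rw [Measure.map_apply_of_aemeasurable hX (hmeas hA)]
    refine measure_mono_null (t := {ω | ¬ (X ω : Up → ℝ) ∉ A}) (fun ω hω => ?_) ?_
    · simpa using hω
    · rw [← ae_iff]
      filter_upwards [h1, hXL] with ω hω1 hω2
      have : (X ω : Up → ℝ) = fun q : Up => L ω q.1.1.1 q.1.1.2 q.1.2.1 q.1.2.2 := funext hω2
      rw [this]
      exact hω1
  · rw [Measure.map_apply_of_aemeasurable hY (hmeas hA).compl]
    refine measure_mono_null (t := {ω | ¬ (Y ω : Up → ℝ) ∈ A}) (fun ω hω => ?_) ?_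
    · simpa using hω
    · rw [← ae_iff]
      filter_upwards [h2, hYL] with ω hω1 hω2
      obtain ⟨f, hf, hfA⟩ := hω1
      have : (Y ω : Up → ℝ) = f := by
        ext q
        have := (hω2 q).trans (hf q).symm
        exact_mod_cast this
      rw [this]
      exact hfA
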